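import Pool.Agent.N303.LS.Stm

/-! LS/SQ: the square function estimate. -/

set_option autoImplicit false

namespace Pool.Agent.N303.LS

open MeasureTheory
open scoped ENNReal FourierTransform RealInnerProductSpace SchwartzMap

theorem SQ_inv {d : ℕ} {F : E d → ℂ} (hF : Measurable F) : Measurable (inv F) := by
  have h : StronglyMeasurable (Function.uncurry fun (x ξ : E d) =>
      Complex.exp (((2 * Real.pi * ⟪x, ξ⟫ : ℝ) : ℂ) * Complex.I) * F ξ) := by
    apply Measurable.stronglyMeasurable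
    unfold Function.uncurry
    fun_prop
  exact (h.integral_prod_right).measurable

theorem SQ_ft {d : ℕ} (g : 𝓢(E d, ℂ)) : Continuous (𝓕 (g : E d → ℂ)) := by
  rw [← SchwartzMap.fourier_coe]
  exact (𝓕 g).continuous

theorem SQ_psi {d : ℕ} (K : 𝓢(E d, ℂ)) (A : Finset (Fin d → ℤ)) : Measurable (psi K A) := by
  have h := (SQ_ft K).measurable
  have : psi K A = fun ξ => ∑ m ∈ A, 𝓕 (K : E d → ℂ) (ξ - pt m) := rfl
  rw [this]
  apply Finset.measurable_sum
  intro m _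
  exact h.comp (measurable_id.sub_const (pt m))

theorem SQ_sn {d : ℕ} (t : ℝ) : Measurable (sn (d := d) t) := by
  unfold sn
  fun_prop

theorem SQ_sym {d : ℕ} (k : Fin d ⊕ Bool) (t : ℝ) : Measurable (sym k t) := by
  have h := SQ_sn (d := d) t
  rcases k with j | b
  · show Measurable fun ξ : E d => ((2 * Real.pi * ξ j : ℝ) : ℂ) * Complex.I * sn t ξ
    have h2 : Measurable fun ξ : E d => ((2 * Real.pi * ξ j : ℝ) : ℂ) * Complex.I := by fun_prop
    exact h2.mul h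
  · cases b
    · exact h
    · show Measurable (cs (d := d) t)
      unfold cs
      fun_prop

theorem SQ_bd {d : ℕ} (k : Fin d ⊕ Bool) (t : ℝ) (h0 : 0 ≤ t) (h2 : t ≤ 2) (ξ : E d) : ‖sym k t ξ‖ ≤ 2 := by
  have hpi := Real.pi_pos
  have hs0 : 0 ≤ 2 * Real.pi * ‖ξ‖ := by positivity
  have hsn : ‖sn t ξ‖ = |Real.sin (2 * Real.pi * t * ‖ξ‖)| / (2 * Real.pi * ‖ξ‖) := by
    unfold sn
    rw [Complex.norm_real, Real.norm_eq_abs, abs_div, abs_of_nonneg hs0]
  rcases k with j | b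
  · show ‖((2 * Real.pi * ξ j : ℝ) : ℂ) * Complex.I * sn t ξ‖ ≤ 2
    rw [norm_mul, norm_mul, Complex.norm_I, mul_one, hsn, Complex.norm_real, Real.norm_eq_abs]
    have h1 : |2 * Real.pi * ξ j| ≤ 2 * Real.pi * ‖ξ‖ := by
      rw [abs_mul, abs_of_pos (by positivity : (0 : ℝ) < 2 * Real.pi)]
      have := PiLp.norm_apply_le ξ j
      rw [Real.norm_eq_abs] at this
      exact mul_le_mul_of_nonneg_left this (by positivity)
    have h3 : |2 * Real.pi * ξ j| * (|Real.sin (2 * Real.pi * t * ‖ξ‖)| / (2 * Real.pi * ‖ξ‖)) ≤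
        (2 * Real.pi * ‖ξ‖) * (1 / (2 * Real.pi * ‖ξ‖)) := by
      apply mul_le_mul h1 _ (by positivity) hs0
      exact div_le_div_of_nonneg_right (Real.abs_sin_le_one _) hs0
    refine h3.trans ?_
    rw [mul_one_div]
    exact (div_self_le_one _).trans (by norm_num)
  · cases b
    · show ‖sn t ξ‖ ≤ 2
      rw [hsn]
      refine le_trans ?_ h2
      refine div_le_of_le_mul₀ hs0 h0 ?_
      have h4 := Real.abs_sin_le_abs (x := 2 * Real.pi * t * ‖ξ‖)
      rw [abs_of_nonneg (by positivity : 0 ≤ 2 * Real.pi * t * ‖ξ‖)] at h4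
      refine h4.trans (le_of_eq ?_)
      ring
    · show ‖cs t ξ‖ ≤ 2
      unfold cs
      rw [Complex.norm_real, Real.norm_eq_abs]
      exact (Real.abs_cos_le_one _).trans (by norm_num)

theorem SQ_W {d : ℕ} (M : ℕ) (x z : E d) : W M (x - z) = W M (z - x) := by
  unfold W
  rw [norm_sub_rev]

theorem SQ_Wm {d : ℕ} (M : ℕ) : Measurable fun p : E d × E d => ENNReal.ofReal (W M (p.1 - p.2)) := by
  unfold W
  fun_prop

theorem SQ_Wm2 {d : ℕ} (M : ℕ) : Measurable fun p : E d × E d => ENNReal.ofReal (W M (p.2 - p.1)) := by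
  unfold W
  fun_prop

theorem SQ_Wx {d : ℕ} (M : ℕ) (z : E d) : Measurable fun x : E d => ENNReal.ofReal (W M (x - z)) := by
  unfold W
  fun_prop

theorem SQ_Wz {d : ℕ} (M : ℕ) (x : E d) : Measurable fun z : E d => ENNReal.ofReal (W M (x - z)) := by
  unfold W
  fun_prop

theorem SQ_nrg {d : ℕ} (M : ℕ) {h : E d → ℂ} (hh : Measurable h) : Measurable (nrg M h) := by
  have e0 : Measurable fun x : E d => ‖h x‖ₑ := hh.enorm
  have e1 : Measurable fun x : E d => ‖h x‖ₑ ^ (2 : ℝ) := e0.pow_const (2 : ℝ)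
  have e2 : Measurable fun p : E d × E d => ‖h p.2‖ₑ ^ (2 : ℝ) := e1.comp measurable_snd
  have hf : Measurable fun p : E d × E d => ‖h p.2‖ₑ ^ (2 : ℝ) * ENNReal.ofReal (W M (p.2 - p.1)) := e2.mul (SQ_Wm2 M)
  have h3 : Measurable fun z : E d => ∫⁻ x : E d, ‖h x‖ₑ ^ (2 : ℝ) * ENNReal.ofReal (W M (x - z)) :=
    hf.lintegral_prod_right'
  exact h3

/-- the square function estimate -/
theorem t_sq (h1 : S_EN) (h2 : S_ORT) (h3 : S_CAR) (h4 : S_PEE) (h5 : S_YH) : S_SQ := by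
  intro d p hp K hK
  obtain ⟨q, hq⟩ : ∃ q : ℝ, q = p / 2 - 1 := ⟨_, rfl⟩
  have hq0 : 0 ≤ q := by rw [hq]; linarith
  have hM : d < 2 * (d + 1) := by omega
  obtain ⟨M', C4, hM', hC4, H4⟩ := h4 d (d + 1) hM q hq0
  obtain ⟨C1, hC1, H1⟩ := h1 d (d + 1) hM
  obtain ⟨C1', hC1', H1'⟩ := h1 d M' hM'
  obtain ⟨C2, hC2, H2⟩ := h2 d M' K hK
  obtain ⟨C3, hC3, H3⟩ := h3 d (d + 1) K hK
  obtain ⟨C5, hC5, H5⟩ := h5 d (d + 1) hM p hp
  refine ⟨(C3 * C1) ^ q * C4 * (C2 * C1') * C4 * C5, by positivity, fun ι _ A V hA hV g t ht0 ht2 k => ?_⟩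
  obtain ⟨F, hF⟩ : ∃ F : E d → ℂ, F = fun ξ => sym k t ξ * 𝓕 (g : E d → ℂ) ξ := ⟨_, rfl⟩
  have hFm : Measurable F := by
    rw [hF]
    exact (SQ_sym k t).mul (SQ_ft g).measurable
  have hFi : Integrable F := by
    rw [hF]
    have hi : Integrable (𝓕 (g : E d → ℂ)) := by
      rw [← SchwartzMap.fourier_coe]
      exact (𝓕 g).integrable
    exact hi.bdd_mul (SQ_sym k t).aestronglyMeasurable (Filter.Eventually.of_forall (SQ_bd k t ht0 ht2))
  have hPm : ∀ i, Measurable (inv fun ξ => psi K (A i) ξ * F ξ) := fun i =>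
    SQ_inv ((SQ_psi K (A i)).mul hFm)
  have hPe : ∀ i, Measurable fun x => ‖inv (fun ξ => psi K (A i) ξ * F ξ) x‖ₑ ^ (2 : ℝ) := by
    intro i
    have e0 : Measurable fun x => ‖inv (fun ξ => psi K (A i) ξ * F ξ) x‖ₑ := (hPm i).enorm
    exact e0.pow_const (2 : ℝ)
  have hgm : Measurable (g : E d → ℂ) := g.continuous.measurable
  have hge : Measurable fun x => ‖g x‖ₑ ^ (2 : ℝ) := by
    have e0 : Measurable fun x => ‖g x‖ₑ := hgm.enorm
    exact e0.pow_const (2 : ℝ)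
  obtain ⟨G, hG⟩ : ∃ G : E d → ℝ≥0∞, G = fun x => ∑ i, ‖inv (fun ξ => psi K (A i) ξ * F ξ) x‖ₑ ^ (2 : ℝ) :=
    ⟨_, rfl⟩
  have hGm : Measurable G := by
    rw [hG]
    exact Finset.measurable_sum _ fun i _ => hPe i
  obtain ⟨N, hN⟩ : ∃ N : E d → ℝ≥0∞, N = fun z => nrg (d + 1) g z := ⟨_, rfl⟩
  have hNm : Measurable N := by
    rw [hN]
    exact SQ_nrg (d + 1) hgm
  have hNq : Measurable fun z => N z ^ q := hNm.pow_const q
  have hw := SQ_Wm (d := d) M'
  have hH4 : ∀ x : E d, N x ^ q ≤ ENNReal.ofReal C4 * ∫⁻ z : E d, N z ^ q * ENNReal.ofReal (W M' (x - z)) := by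
    intro x
    rw [hN]
    exact (H4 g x).1
  have hH4' : ∀ x : E d, ∫⁻ z : E d, N z ^ q * ENNReal.ofReal (W M' (x - z)) ≤ ENNReal.ofReal C4 * N x ^ q := by
    intro x
    rw [hN]
    exact (H4 g x).2
  -- the pointwise estimate
  have hGN : ∀ x, G x ≤ ENNReal.ofReal (C3 * C1 * V) * N x := by
    intro x
    rw [hG, hN]
    refine (H3 ι A V hA hV F hFi x).trans ?_
    have e1 := H1 g x t ht0 ht2 k
    rw [← hF] at e1
    refine (mul_le_mul_right e1 _).trans (le_of_eq ?_)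
    rw [← mul_assoc, ← ENNReal.ofReal_mul (by positivity)]
    congr 2
    ring
  have hc0 : 0 ≤ C3 * C1 * (V : ℝ) := by positivity
  obtain ⟨c, hc⟩ : ∃ c : ℝ≥0∞, c = ENNReal.ofReal ((C3 * C1 * V) ^ q) * ENNReal.ofReal C4 := ⟨_, rfl⟩
  have hpt : ∀ x, G x ^ (p / 2) ≤ c * ((∫⁻ z : E d, N z ^ q * ENNReal.ofReal (W M' (x - z))) * G x) := by
    intro x
    have e0 : p / 2 = q + 1 := by rw [hq]; ring
    rw [e0, ENNReal.rpow_add_of_nonneg _ _ hq0 zero_le_one, ENNReal.rpow_one, ← mul_assoc]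
    refine mul_le_mul_left ?_ _
    refine (ENNReal.rpow_le_rpow (hGN x) hq0).trans ?_
    rw [ENNReal.mul_rpow_of_nonneg _ _ hq0, ENNReal.ofReal_rpow_of_nonneg hc0 hq0, hc]
    exact (mul_le_mul_right (hH4 x) _).trans (le_of_eq (mul_assoc _ _ _).symm)
  have hcn : c ≠ ∞ := by
    rw [hc]
    exact ENNReal.mul_ne_top ENNReal.ofReal_ne_top ENNReal.ofReal_ne_top
  -- Tonelli
  have hsw1 : ∫⁻ x : E d, (∫⁻ z : E d, N z ^ q * ENNReal.ofReal (W M' (x - z))) * G x =
      ∫⁻ z : E d, N z ^ q * ∫⁻ x : E d, G x * ENNReal.ofReal (W M' (x - z)) := by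
    have a1 : ∀ x : E d, (∫⁻ z : E d, N z ^ q * ENNReal.ofReal (W M' (x - z))) * G x =
        ∫⁻ z : E d, N z ^ q * ENNReal.ofReal (W M' (x - z)) * G x := by
      intro x
      rw [lintegral_mul_const]
      exact hNq.mul (SQ_Wz M' x)
    simp only [a1]
    rw [lintegral_lintegral_swap]
    · refine lintegral_congr fun z => ?_
      rw [← lintegral_const_mul]
      · refine lintegral_congr fun x => ?_
        ring
      · exact hGm.mul (SQ_Wx M' z)
    · apply Measurable.aemeasurable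
      have m1 : Measurable fun p : E d × E d => N p.2 ^ q := hNq.comp measurable_snd
      have m2 : Measurable fun p : E d × E d => G p.1 := hGm.comp measurable_fst
      exact (m1.mul hw).mul m2
  have hnr : ∀ z : E d, ∫⁻ x : E d, G x * ENNReal.ofReal (W M' (x - z)) ≤
      ENNReal.ofReal (C2 * C1') * nrg M' g z := by
    intro z
    have b1 : ∫⁻ x : E d, G x * ENNReal.ofReal (W M' (x - z)) =
        ∑ i, nrg M' (inv fun ξ => psi K (A i) ξ * F ξ) z := by
      unfold nrg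
      rw [← lintegral_finsetSum]
      · refine lintegral_congr fun x => ?_
        rw [hG, Finset.sum_mul]
      · intro i _
        exact (hPe i).mul (SQ_Wx M' z)
    rw [b1]
    refine (H2 ι A hA F hFi z).trans ?_
    have e1 := H1' g z t ht0 ht2 k
    rw [← hF] at e1
    refine (mul_le_mul_right e1 _).trans (le_of_eq ?_)
    rw [← mul_assoc, ← ENNReal.ofReal_mul (by positivity)]
  have hsw2 : ∫⁻ z : E d, N z ^ q * nrg M' g z ≤
      ENNReal.ofReal (C4 * C5) * ∫⁻ x : E d, ‖g x‖ₑ ^ p := by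
    have a1 : ∀ z : E d, N z ^ q * nrg M' g z =
        ∫⁻ x : E d, N z ^ q * (‖g x‖ₑ ^ (2 : ℝ) * ENNReal.ofReal (W M' (x - z))) := by
      intro z
      rw [lintegral_const_mul]
      · rfl
      · exact hge.mul (SQ_Wx M' z)
    simp only [a1]
    rw [lintegral_lintegral_swap]
    · have a2 : ∀ x : E d, ∫⁻ z : E d, N z ^ q * (‖g x‖ₑ ^ (2 : ℝ) * ENNReal.ofReal (W M' (x - z))) ≤
          ENNReal.ofReal C4 * (‖g x‖ₑ ^ (2 : ℝ) * N x ^ q) := by
        intro x
        have a3 : ∫⁻ z : E d, N z ^ q * (‖g x‖ₑ ^ (2 : ℝ) * ENNReal.ofReal (W M' (x - z))) =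
            ‖g x‖ₑ ^ (2 : ℝ) * ∫⁻ z : E d, N z ^ q * ENNReal.ofReal (W M' (x - z)) := by
          rw [← lintegral_const_mul]
          · refine lintegral_congr fun z => ?_
            ring
          · exact hNq.mul (SQ_Wz M' x)
        rw [a3]
        refine (mul_le_mul_right (hH4' x) _).trans (le_of_eq ?_)
        ring
      refine (lintegral_mono a2).trans ?_
      rw [lintegral_const_mul' _ _ ENNReal.ofReal_ne_top, ENNReal.ofReal_mul hC4.le, mul_assoc]
      refine mul_le_mul_right ?_ _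
      have h5' := H5 g
      rw [← hq] at h5'
      rw [hN]
      exact h5'
    · apply Measurable.aemeasurable
      have m1 : Measurable fun p : E d × E d => N p.1 ^ q := hNq.comp measurable_fst
      have m2 : Measurable fun p : E d × E d => ‖g p.2‖ₑ ^ (2 : ℝ) := hge.comp measurable_snd
      exact m1.mul (m2.mul (SQ_Wm2 M'))
  have hmain : ∫⁻ x : E d, G x ^ (p / 2) ≤
      c * (ENNReal.ofReal (C2 * C1') * (ENNReal.ofReal (C4 * C5) * ∫⁻ x : E d, ‖g x‖ₑ ^ p)) := by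
    refine (lintegral_mono hpt).trans ?_
    rw [lintegral_const_mul' _ _ hcn, hsw1]
    refine mul_le_mul_right ?_ _
    refine (lintegral_mono fun z => mul_le_mul_right (hnr z) _).trans ?_
    have a1 : ∀ z : E d, N z ^ q * (ENNReal.ofReal (C2 * C1') * nrg M' g z) =
        ENNReal.ofReal (C2 * C1') * (N z ^ q * nrg M' g z) := fun z => by ring
    simp only [a1]
    rw [lintegral_const_mul' _ _ ENNReal.ofReal_ne_top]
    exact mul_le_mul_right hsw2 _
  have hfin : ∫⁻ x : E d, (∑ i, ‖inv (fun ξ => psi K (A i) ξ * (sym k t ξ * 𝓕 (g : E d → ℂ) ξ)) x‖ₑ ^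
        (2 : ℝ)) ^ (p / 2) = ∫⁻ x : E d, G x ^ (p / 2) := by
    rw [hG, hF]
  rw [hfin]
  refine hmain.trans (le_of_eq ?_)
  rw [hc, ← hq]
  rw [← mul_assoc, ← mul_assoc, ← ENNReal.ofReal_mul (by positivity), ← ENNReal.ofReal_mul (by positivity),
    ← ENNReal.ofReal_mul (by positivity)]
  congr 2
  rw [Real.mul_rpow (by positivity) (by positivity)]
  ring

end Pool.Agent.N303.LS
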