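import Pool.Agent.N545.LS.KS6
import Pool.Agent.N169.LS.KS2
import Pool.Agent.N169.LS.KS3

set_option autoImplicit false

/-! Part KS6 of project LS: lower bound for `v`. -/

namespace Pool.Agent.N545.LS

open Finset Pool.Agent.N356.SP

variable {Γ R : Type*} [AddCommGroup Γ] [CommRing R] [Algebra ℝ R] {K : Cone Γ R}
  {L : R →ₗ[ℝ] ℝ} {C : Finset Γ} {θ : Γ → Γ → ℝ} {φ : Γ → R}

/-- KS6: lower bound for `v` -/
theorem L_v (hL : IsFun K L) (h : GoodC C θ) (hφ : ∀ c, φ c ∈ K.P c) :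
    1 / 2 * L (muA C φ ^ 2) + 8 / 15 * L (wA C θ φ) ≤ L (vA C φ) := by
  refine L_v_of hL hφ (Pool.Agent.N169.LS.comb2 h) (Pool.Agent.N169.LS.fA_sq h.neg) ?_
    (Pool.Agent.N169.LS.L_U2 hL h.neg hφ)
  have h1 := Pool.Agent.N169.LS.L_U
    (Pool.Agent.N169.LS.isFun_mul hL (Pool.Agent.N169.LS.muA_mem (C := C) hφ)) hφ (C := C)
  simpa using h1

end Pool.Agent.N545.LS
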