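import Pool.Agent.N356.SP.Defs4

set_option autoImplicit false

/-! Lower bound for the class `0` of the square of the nonzero classes of `f ^ 2`. -/

namespace Pool.Agent.N356.SP

open Finset

section Abs6

variable {Γ R : Type*} [AddCommGroup Γ] [CommRing R] [Algebra ℝ R] {K : Cone Γ R}
  {L : R →ₗ[ℝ] ℝ} {C : Finset Γ} {θ : Γ → Γ → ℝ} {φ : Γ → R}

lemma prod_mem6 (hφ : ∀ c, φ c ∈ K.P c) (U : Multiset Γ) : (U.map φ).prod ∈ K.P U.sum := by
  induction U using Multiset.induction_on with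
  | empty => simpa using K.one
  | cons a U ih =>
    rw [Multiset.map_cons, Multiset.prod_cons, Multiset.sum_cons]
    exact K.mul _ _ _ _ (hφ a) ih

lemma prod4 (a b c d : Γ) : ((({a, b, c, d} : Multiset Γ)).map φ).prod = φ a * φ b * (φ c * φ d) := by
  simp [mul_assoc]

lemma muA_sq : muA C φ ^ 2 = ∑ x ∈ C, ∑ y ∈ C, φ x * φ (-x) * (φ y * φ (-y)) := by
  unfold muA
  rw [sq, sum_mul_sum]

lemma fA_four : fA C φ ^ 4 = ∑ a ∈ C, ∑ b ∈ C, ∑ c ∈ C, ∑ d ∈ C, φ a * φ b * (φ c * φ d) := by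
  have h2 : fA C φ ^ 2 = ∑ a ∈ C, ∑ b ∈ C, φ a * φ b := by
    unfold fA
    rw [sq, sum_mul_sum]
  have h4 : fA C φ ^ 4 = fA C φ ^ 2 * fA C φ ^ 2 := by ring
  rw [h4, h2, sum_mul]
  refine sum_congr rfl fun a _ => ?_
  rw [sum_mul]
  refine sum_congr rfl fun b _ => ?_
  rw [mul_sum]
  refine sum_congr rfl fun c _ => ?_
  rw [mul_sum]

open Classical in
lemma wA_eq : wA C θ φ = ∑ s ∈ C, ∑ t ∈ C, ∑ u ∈ C, ∑ v ∈ C,
    if u + v = -(s + t) then (θ s t * θ u v) • (φ s * φ t * (φ u * φ v)) else 0 := by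
  unfold wA
  have h1 : ∀ r ∈ DD C, VA C θ φ r * VA C θ φ (-r) = ∑ s ∈ C, ∑ t ∈ C,
      if s + t = r then (θ s t • (φ s * φ t)) * VA C θ φ (-(s + t)) else 0 := by
    intro r _
    conv_lhs => unfold VA
    rw [sum_mul]
    refine sum_congr rfl fun s _ => ?_
    rw [sum_mul]
    refine sum_congr rfl fun t _ => ?_
    split_ifs with h
    · rw [h]; rfl
    · rw [zero_mul]
  rw [sum_congr rfl h1, sum_comm]
  refine sum_congr rfl fun s hs => ?_
  rw [sum_comm]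
  refine sum_congr rfl fun t ht => ?_
  have hst : s + t ∈ DD C := by
    unfold DD
    rw [mem_image]
    exact ⟨(s, t), mem_product.mpr ⟨hs, ht⟩, rfl⟩
  rw [sum_ite_eq, if_pos hst]
  unfold VA
  rw [mul_sum]
  refine sum_congr rfl fun u _ => ?_
  rw [mul_sum]
  refine sum_congr rfl fun v _ => ?_
  split_ifs with h
  · rw [smul_mul_smul_comm]
  · rw [mul_zero]

/-- KS6 from the other parts -/
theorem L_v_of (hL : IsFun K L) (hφ : ∀ c, φ c ∈ K.P c)
    (hcomb : ∀ I : Multiset Γ → ℝ, (∀ U, 0 ≤ I U) → (∀ U : Multiset Γ, U.sum ≠ 0 → I U = 0) →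
      3 / 2 * (∑ x ∈ C, ∑ y ∈ C, I {x, -x, y, -y}) +
        8 / 15 * (∑ s ∈ C, ∑ t ∈ C, ∑ u ∈ C, ∑ v ∈ C, θ s t * θ u v * I {s, t, u, v}) ≤
      ∑ a ∈ C, ∑ b ∈ C, ∑ c ∈ C, ∑ d ∈ C, I {a, b, c, d})
    (hsq : fA C φ ^ 2 = muA C φ + UA C φ) (hmU : L (muA C φ * UA C φ) = 0)
    (hU2 : L (UA C φ ^ 2) = L (vA C φ)) :
    1 / 2 * L (muA C φ ^ 2) + 8 / 15 * L (wA C θ φ) ≤ L (vA C φ) := by
  have hIz : ∀ U : Multiset Γ, U.sum ≠ 0 → L (U.map φ).prod = 0 := fun U hU =>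
    hL.z _ hU _ (prod_mem6 hφ U)
  have hI0 : ∀ U : Multiset Γ, 0 ≤ L (U.map φ).prod := by
    intro U
    by_cases hU : U.sum = 0
    · have := prod_mem6 hφ U
      rw [hU] at this
      exact hL.nn _ this
    · rw [hIz U hU]
  have h1 := hcomb (fun U => L (U.map φ).prod) hI0 hIz
  simp only [prod4] at h1
  have e1 : ∑ x ∈ C, ∑ y ∈ C, L (φ x * φ (-x) * (φ y * φ (-y))) = L (muA C φ ^ 2) := by
    rw [muA_sq]
    simp only [map_sum]
  have e2 : ∑ a ∈ C, ∑ b ∈ C, ∑ c ∈ C, ∑ d ∈ C, L (φ a * φ b * (φ c * φ d)) = L (fA C φ ^ 4) := by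
    rw [fA_four]
    simp only [map_sum]
  have e3 : ∑ s ∈ C, ∑ t ∈ C, ∑ u ∈ C, ∑ v ∈ C, θ s t * θ u v * L (φ s * φ t * (φ u * φ v)) =
      L (wA C θ φ) := by
    rw [wA_eq]
    simp only [map_sum]
    refine sum_congr rfl fun s _ => sum_congr rfl fun t _ => sum_congr rfl fun u _ =>
      sum_congr rfl fun v _ => ?_
    split_ifs with h
    · rw [map_smul, smul_eq_mul]
    · rw [map_zero]
      have h2 : L (φ s * φ t * (φ u * φ v)) = 0 := by
        rw [← prod4]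
        apply hIz
        intro h3
        apply h
        have h4 : s + t + (u + v) = 0 := by
          have : (({s, t, u, v} : Multiset Γ)).sum = s + t + (u + v) := by simp [add_assoc]
          rwa [this] at h3
        exact eq_neg_of_add_eq_zero_right h4
      rw [h2, mul_zero]
  rw [e1, e2, e3] at h1
  have e4 : fA C φ ^ 4 = muA C φ ^ 2 + (muA C φ * UA C φ + muA C φ * UA C φ) + UA C φ ^ 2 := by
    have : fA C φ ^ 4 = (fA C φ ^ 2) ^ 2 := by ring
    rw [this, hsq]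
    ring
  rw [e4, map_add, map_add, map_add, hmU, hU2] at h1
  linarith

end Abs6

end Pool.Agent.N356.SP
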